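import Mathlib

set_option autoImplicit false

namespace Pool.Agent.Results.MP_3923f3_nt.LowerBound

/-- admissible quadruples -/
def Admissible (a b c d : ℤ) : Prop :=
  a ≠ 0 ∧ b ≠ 0 ∧ c ≠ 0 ∧ ¬ (0 < a ∧ 0 < b ∧ 0 < c) ∧ ¬ (a < 0 ∧ b < 0 ∧ c < 0) ∧
  Even (a + b + c - d) ∧
  Int.gcd (Int.gcd a b) c = 1 ∧ Int.gcd (Int.gcd d a) b = 1 ∧
  Int.gcd (Int.gcd d a) c = 1 ∧ Int.gcd (Int.gcd d b) c = 1

/-- m(a,b,c) = max(3,|a|,|b|,|c|) -/
def mm (a b c : ℤ) : ℤ := max 3 (max |a| (max |b| |c|))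

/-- good exponents -/
def Good (μ : ℝ) : Prop :=
  ∀ a b c d : ℤ, Admissible a b c d →
    ∃ p q r : ℕ, p.Prime ∧ q.Prime ∧ r.Prime ∧ a * p + b * q + c * r = d ∧
      ((max p (max q r) : ℕ) : ℝ) ≤ 3 * |(d : ℝ)| + (mm a b c : ℝ) ^ μ

theorem result (μ : ℝ) (h : Good μ) : Real.log 13 / Real.log 3 ≤ μ := by
  obtain ⟨p, q, r, hp, hq, hr, he, hm⟩ := h 2 3 (-1) 0 (by
    unfold Admissible
    refine ⟨by norm_num, by norm_num, by norm_num, by norm_num, by norm_num, by decide,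
      by decide, by decide, by decide, by decide⟩)
  have hmm : mm 2 3 (-1) = 3 := by decide
  rw [hmm] at hm
  have hr' : r = 2 * p + 3 * q := by omega
  have h13 : 13 ≤ r := by
    by_contra hlt
    have hp2 := hp.two_le
    have hq2 := hq.two_le
    have hq' : q = 2 := by omega
    have hp' : p = 2 ∨ p = 3 := by omega
    rcases hp' with h | h
    · have : r = 10 := by omega
      rw [this] at hr; norm_num at hr
    · have : r = 12 := by omega
      rw [this] at hr; norm_num at hr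
  have h1 : (13 : ℝ) ≤ (3 : ℝ) ^ μ := by
    have : (13 : ℝ) ≤ ((max p (max q r) : ℕ) : ℝ) := by
      exact_mod_cast le_trans h13 (le_trans (le_max_right _ _) (le_max_right _ _))
    simp at hm this ⊢
    rcases hm with ⟨h1, h2, h3⟩
    have : (13 : ℝ) ≤ r := by exact_mod_cast h13
    linarith
  have hl : 0 < Real.log 3 := Real.log_pos (by norm_num)
  rw [div_le_iff₀ hl]
  have := Real.log_le_log (by norm_num) h1
  rwa [Real.log_rpow (by norm_num)] at this

end Pool.Agent.Results.MP_3923f3_nt.LowerBound
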